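import Pool.Agent.Q220.AllSymbol.Final
import Pool.Agent.Q220.AllSymbol.Upper

/-!
# The optimal all-symbol PIR and batch code lengths are not subadditive in `t`

For `q = 3`, `k = 3`, `t₁ = 2`, `t₂ = 5` we show
`ASP(3, 2, 3) + ASP(3, 5, 3) ≤ 4 + 9 < 14 ≤ ASP(3, 7, 3)`, and the same for `ASB`.

The code of length 9 has as columns the nine points of the plane of order three off a conic: every
column lies on four disjoint pairs of further columns collinear with it. For the lower bound let a
code of length at most 13 have the 7-all-symbol PIR property. At most six columns lie on a line,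
so every point has multiplicity at most three; seven disjoint recovery sets of a column of small
multiplicity consist almost entirely of pairs, which gives parity conditions on the lines; a
finite search shows that the conditions cannot all hold.
-/

namespace Pool.Agent.Results.MP_821f63_lc.NotSubadditive

open Q220.AllSymbol

theorem asp_le {k t n : ℕ} {G : Matrix (Fin k) (Fin n) (ZMod 3)}
    (h1 : LinearIndependent (ZMod 3) G.row) (h2 : AllSymbolBatch t G) : ASP (ZMod 3) k t ≤ n :=
  Nat.sInf_le ⟨G, h1, h2.pir⟩

theorem asb_le {k t n : ℕ} {G : Matrix (Fin k) (Fin n) (ZMod 3)}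
    (h1 : LinearIndependent (ZMod 3) G.row) (h2 : AllSymbolBatch t G) : ASB (ZMod 3) k t ≤ n :=
  Nat.sInf_le ⟨G, h1, h2⟩

theorem le_asp : 14 ≤ ASP (ZMod 3) 3 7 := by
  refine le_csInf ⟨21, G21, indep_G21, batch_G21.pir⟩ ?_
  rintro n ⟨G, h1, h2⟩
  by_contra h
  exact no_short_code G (by omega) h1 h2

theorem le_asb : 14 ≤ ASB (ZMod 3) 3 7 := by
  refine le_csInf ⟨21, G21, indep_G21, batch_G21⟩ ?_
  rintro n ⟨G, h1, h2⟩
  by_contra h
  exact no_short_code G (by omega) h1 h2.pir

/-- **Main theorem.** Both functions fail to be subadditive in `t`. -/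
theorem result :
    ASP (ZMod 3) 3 2 + ASP (ZMod 3) 3 5 < ASP (ZMod 3) 3 (2 + 5) ∧
    ASB (ZMod 3) 3 2 + ASB (ZMod 3) 3 5 < ASB (ZMod 3) 3 (2 + 5) := by
  have a1 := asp_le indep_G4 batch_G4
  have a2 := asp_le indep_G9 batch_G9
  have a3 := le_asp
  have b1 := asb_le indep_G4 batch_G4
  have b2 := asb_le indep_G9 batch_G9
  have b3 := le_asb
  norm_num
  omega

end Pool.Agent.Results.MP_821f63_lc.NotSubadditive
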